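import Mathlib
import Pool.Agent.Helper92.CP.One
import Pool.Agent.Helper92.GC.D1
import Pool.Agent.Helper54.AC.Fixv

/-!
# The circle problem at almost every centre: exponent `7/12 + ε`, and the exponent `1/2 + ε` of the conjecture in `L^p` for all `p ≤ 14`
-/

set_option autoImplicit false
open MeasureTheory Real

namespace Pool.Agent.Results.MP_fb29e9_nt.AlmostEveryCentre

/-- `H` is the support function of a convex domain with boundary of class `C⁵` and positive radius of curvature `H + H''`. -/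
def IsSupport (H : ℝ → ℝ) : Prop :=
  ContDiff ℝ 5 H ∧ Function.Periodic H (2 * π) ∧ ∀ t, 0 < H t + deriv (deriv H) t

/-- The exponent `e(p) = 1/2 + 1/12 max(0, 1 - 14/p)`: `1/2` for `p ≤ 14`, and `7/12` for `p = ∞` (where `p.toReal = 0` and `x / 0 = 0`). -/
noncomputable def expo (p : ENNReal) : ℝ := 1 / 2 + (7 / 12 - 1 / 2) * max 0 (1 - 14 / p.toReal)

/-- The norm of `f` in `L^p[X, 2X]`, `0 < p ≤ ∞`; for `p = ∞` the supremum of `f R` over all `R ∈ [X, 2X]`. (`∫⁻` is the Lebesgue integral of a function with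
values in `[0, ∞]`.) -/
noncomputable def lpNorm (p : ENNReal) (X : ℝ) (f : ℝ → ENNReal) : ENNReal :=
  if p = ⊤ then ⨆ R ∈ Set.Icc X (2 * X), f R else (∫⁻ R in Set.Icc X (2 * X), f R ^ p.toReal) ^ (1 / p.toReal)

/-- The number of integer points in `c + R · D`, where `D = {p | p.1 cos t + p.2 sin t ≤ H t for all t}`. -/
noncomputable def latticeCount (H : ℝ → ℝ) (c : ℝ × ℝ) (R : ℝ) : ℝ :=
  (Nat.card {k : ℤ × ℤ // ∀ t : ℝ, ((k.1 : ℝ) - c.1) * cos t + ((k.2 : ℝ) - c.2) * sin t ≤ R * H t} : ℝ)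

/-- The area of `D`. -/
noncomputable def area (H : ℝ → ℝ) : ℝ :=
  (volume {p : ℝ × ℝ | ∀ t : ℝ, p.1 * cos t + p.2 * sin t ≤ H t}).toReal

/-- Let `D` be an oval with support function `H` of class `C⁵`, for example the unit disc, `H = 1`. For almost every centre `c` of the plane the error
`E_c(R)`, the number of integer points in `c + R · D` minus `area D · R²`, satisfies, for all `0 < p ≤ ∞` and `ε > 0`, the bound `C X^(1/p + e(p) + ε)` for its norm in
`L^p[X, 2X]`, for all `X ≥ 1`. So the exponent is `7/12` for `p = ∞` and `1/2` for `p ≤ 14`. -/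
theorem result : ∀ H : ℝ → ℝ, IsSupport H → ∀ᵐ c : ℝ × ℝ, ∀ p : ENNReal, 0 < p → ∀ ε : ℝ, 0 < ε → ∃ C : ℝ, ∀ X : ℝ, 1 ≤ X →
    lpNorm p X (fun R => ENNReal.ofReal |latticeCount H c R - area H * R ^ 2|) ≤ ENNReal.ofReal (C * X ^ (1 / p.toReal + expo p + ε)) := by
  intro H hH
  filter_upwards [Pool.Agent.Helper54.AC.ae_fix hH.1 hH.2.1 hH.2.2] with c hc p hp ε hε
  obtain ⟨C, hC⟩ := hc.all (fun R => abs_nonneg _) (by norm_num) (by norm_num) hp hε
  refine ⟨C, fun X hX => ?_⟩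
  have h2 := hC X hX
  push_cast at h2
  exact h2

/-- The case `p = ∞`: a bound for all radii. -/
theorem pointwise : ∀ H : ℝ → ℝ, IsSupport H → ∀ᵐ c : ℝ × ℝ, ∀ ε : ℝ, 0 < ε →
    ∃ C : ℝ, ∀ R : ℝ, 1 ≤ R → |latticeCount H c R - area H * R ^ 2| ≤ C * R ^ (7 / 12 + ε) := by
  intro H hH
  filter_upwards [Pool.Agent.Helper54.AC.ae_fix hH.1 hH.2.1 hH.2.2] with c hc
  exact hc.1

/-- The case of the unit disc in coordinates: for almost every centre `c` the number of integer points in the closed disc with centre `c` and radius `R` is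
`π R² + O(R^(7/12 + ε))`. -/
theorem disc : ∀ᵐ c : ℝ × ℝ, ∀ ε : ℝ, 0 < ε → ∃ C : ℝ, ∀ R : ℝ, 1 ≤ R →
    |(Nat.card {k : ℤ × ℤ // ((k.1 : ℝ) - c.1) ^ 2 + ((k.2 : ℝ) - c.2) ^ 2 ≤ R ^ 2} : ℝ) - π * R ^ 2| ≤ C * R ^ (7 / 12 + ε : ℝ) := by
  filter_upwards [pointwise (fun _ => 1) ⟨contDiff_const, fun _ => rfl, fun t => by simp⟩] with c hc ε hε
  obtain ⟨C, hC⟩ := hc ε hε
  refine ⟨C, fun R hR => ?_⟩
  have h := hC R hR
  have h2 : area (fun _ => 1) = π := Pool.Agent.Helper92.GC.area_one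
  have h3 : latticeCount (fun _ => 1) c R = (Nat.card {k : ℤ × ℤ // ((k.1 : ℝ) - c.1) ^ 2 + ((k.2 : ℝ) - c.2) ^ 2 ≤ R ^ 2} : ℝ) :=
    (Pool.Agent.Helper92.GC.dcnt_eq (by linarith) c).symm
  rw [h2, h3] at h
  exact h

end Pool.Agent.Results.MP_fb29e9_nt.AlmostEveryCentre
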