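import Mathlib
import Pool.Agent.Helper92.LA.Fin
import Pool.Agent.Helper75.TW.GenLast
import Pool.Agent.Helper75.GD.Tau
import Pool.Agent.Helper92.AG.Dense
import Pool.Agent.Helper75.LM.Fin
import Pool.Agent.Helper64.LM.Meas
import Pool.Agent.Helper75.LMA.Last

/-!
# The circle problem for almost every lattice: the norms of every order `p`, `0 < p ≤ ∞`, at the worst centre, the limit laws, and the dimension of the sets of
exceptional lattices
-/

set_option autoImplicit false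
open MeasureTheory Real
open scoped ENNReal

namespace Pool.Agent.Results.MP_fb29e9_nt.AlmostEveryLattice

/-- `H` is the support function of a convex domain with positive radius of curvature `H + H''`, of class `C⁵`. -/
def IsSupport (H : ℝ → ℝ) : Prop :=
  ContDiff ℝ 5 H ∧ Function.Periodic H (2 * π) ∧ ∀ t, 0 < H t + deriv (deriv H) t

/-- The determinant of the vectors `a`, `b`. -/
def det (a b : ℝ × ℝ) : ℝ := a.1 * b.2 - a.2 * b.1

/-- The radius of curvature. -/
noncomputable def rad (H : ℝ → ℝ) (t : ℝ) : ℝ := H t + deriv (deriv H) t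

/-- `9 r² + 4 r'² - 3 r r''` for the radius of curvature `r`: this is `9 r^(10/3)` times the affine curvature of the boundary. -/
noncomputable def aff (H : ℝ → ℝ) (t : ℝ) : ℝ := 9 * rad H t ^ 2 + 4 * deriv (rad H) t ^ 2 - 3 * rad H t * deriv (deriv (rad H)) t

/-- `H` is of class `C⁷` and the affine curvature of the boundary has no multiple zero, or `H` is of class `C⁶` and the affine curvature is positive
everywhere. Discs and ellipses satisfy this (`isAffine_ellipse` below). -/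
def IsAffine (H : ℝ → ℝ) : Prop :=
  (ContDiff ℝ 7 H ∧ ∀ t, aff H t ≠ 0 ∨ deriv (aff H) t ≠ 0) ∨ (ContDiff ℝ 6 H ∧ ∀ t, 0 < aff H t)

open Classical in
/-- The exponent for almost every lattice and `p = ∞`: `9/17` if the affine curvature has no multiple zero, `5/9` for all other ovals. -/
noncomputable def expo (H : ℝ → ℝ) : ℝ := if IsAffine H then 9 / 17 else 5 / 9

open Classical in
/-- The largest order `p` with the exponent `1/2` of Q1: `36` if the affine curvature has no multiple zero, `20` for all other ovals. -/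
noncomputable def order (H : ℝ → ℝ) : ℝ := if IsAffine H then 36 else 20

/-- The exponent `e(p)` for almost every lattice and the order `p`, `0 < p ≤ ∞`: `1/2 + (expo H - 1/2) max(0, 1 - order H / p)` (`1/∞ = 0`). It is `1/2` for
`p ≤ order H` and `expo H` for `p = ∞` (`expoOf_le`, `expoOf_top` below). -/
noncomputable def expoOf (H : ℝ → ℝ) (p : ℝ≥0∞) : ℝ := 1 / 2 + (expo H - 1 / 2) * max 0 (1 - order H * (p⁻¹).toReal)

/-- The number of `(m, n) ∈ ℤ²` with `m a + n b ∈ c + R · D`, where `D = {p | p.1 cos t + p.2 sin t ≤ H t for all t}`. -/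
noncomputable def latticeCount (a b : ℝ × ℝ) (H : ℝ → ℝ) (c : ℝ × ℝ) (R : ℝ) : ℝ :=
  (Nat.card {k : ℤ × ℤ // ∀ t : ℝ, ((k.1 : ℝ) * a.1 + (k.2 : ℝ) * b.1 - c.1) * cos t +
    ((k.1 : ℝ) * a.2 + (k.2 : ℝ) * b.2 - c.2) * sin t ≤ R * H t} : ℝ)

/-- The area of `D`. -/
noncomputable def area (H : ℝ → ℝ) : ℝ :=
  (volume {p : ℝ × ℝ | ∀ t : ℝ, p.1 * cos t + p.2 * sin t ≤ H t}).toReal

/-- The error `E_c(R)` for the centre `c`: the number of points of the lattice `ℤ a + ℤ b` in `c + R · D` minus `area(D) R² / |det(a, b)|`. -/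
noncomputable def err (a b : ℝ × ℝ) (H : ℝ → ℝ) (c : ℝ × ℝ) (R : ℝ) : ℝ := latticeCount a b H c R - area H * R ^ 2 / |det a b|

/-- The discrepancy bound of order `p` with the exponent `e + ε`: `‖sup_c |E_c|‖_{L^p[X, 2X]} ≤ C X^(1/p + e + ε)`. That is: for every `ε > 0` there is `C`
such that, for `p = ∞`, `|E_c(R)| ≤ C R^(e + ε)` for all `R ≥ 1` and all centres `c`, and for `p < ∞`, `∫_X^{2X} sup_c |E_c(R)|^p dR ≤ C X^(1 + p (e + ε))` for
all `X ≥ 1` (`∫⁻` is the Lebesgue integral of a function with values in `[0, ∞]`; the integrand is a Borel function, see `measurable` below). -/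
def HasBound (a b : ℝ × ℝ) (H : ℝ → ℝ) (p : ℝ≥0∞) (e : ℝ) : Prop :=
  ∀ ε : ℝ, 0 < ε → ∃ C : ℝ,
    (p = ⊤ → ∀ R : ℝ, 1 ≤ R → ∀ c : ℝ × ℝ, |err a b H c R| ≤ C * R ^ (e + ε)) ∧
    (p ≠ ⊤ → ∀ X : ℝ, 1 ≤ X → ∫⁻ R in Set.Icc X (2 * X), ⨆ c : ℝ × ℝ, ENNReal.ofReal (|err a b H c R| ^ p.toReal) ≤
      ENNReal.ofReal (C * X ^ (1 + p.toReal * (e + ε))))

/-- The error at the worst centre, `sup_c |E_c(R)|` over all centres `c` of the plane. It is finite, and a Borel function of `R` (`worst_finite` below). -/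
noncomputable def worst (a b : ℝ × ℝ) (H : ℝ → ℝ) (R : ℝ) : ℝ := ⨆ c : ℝ × ℝ, |err a b H c R|

/-- `ν` is the limit law of `U(R) / √R`, together with all moments of order less than `P`: `ν` is a probability measure, and for every continuous function `f`
with `|f(y)| ≤ A (1 + |y|)^p`, `0 ≤ p < P`, the mean of `f (U(R) / √R)` over `R` in `[X, 2X]` tends to `∫ f dν` as `X → ∞`. -/
def IsLaw (P : ℝ) (U : ℝ → ℝ) (ν : Measure ℝ) : Prop :=
  IsProbabilityMeasure ν ∧ ∀ f : ℝ → ℝ, Continuous f → ∀ p : ℝ, 0 ≤ p → p < P → ∀ A : ℝ, (∀ y, |f y| ≤ A * (1 + |y|) ^ p) →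
    Integrable f ν ∧ Filter.Tendsto (fun X : ℝ => X⁻¹ * ∫ R in Set.Icc X (2 * X), f (U R / √R)) Filter.atTop (nhds (∫ y, f y ∂ν))

/-- The limit laws: for `U = sup_c |E_c|` and for `U = E_c` with any centre `c`, `U(R) / √R` has a limit law, not the point mass at `0`, together with all moments
of order less than `order H`. -/
def HasLaws (a b : ℝ × ℝ) (H : ℝ → ℝ) : Prop :=
  ∀ U : ℝ → ℝ, (U = worst a b H ∨ ∃ c : ℝ × ℝ, U = err a b H c) → ∃ ν : Measure ℝ, IsLaw (order H) U ν ∧ 0 < ∫ y, |y| ∂ν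

open Classical in
/-- The dimension for the exponent `e`: `max(9/e - 13, (46 - 54 e)/(6 - 3 e))` if the affine curvature has no multiple zero (the second number is the larger
one for `e ≥ 0.532`), `5/e - 5` for all other ovals. It is `4` for `e = expo H` and above `4` for `1/2 ≤ e < expo H`. -/
noncomputable def dimBound (H : ℝ → ℝ) (e : ℝ) : ℝ := if IsAffine H then max (9 / e - 13) ((46 - 54 * e) / (6 - 3 * e)) else 5 / e - 5

/-- The set `S` has measure zero and its `d`-dimensional Hausdorff measure is zero. Its Hausdorff dimension is at most `d` (`dimension` below). -/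
def IsSmall {X : Type*} [EMetricSpace X] [MeasureSpace X] [BorelSpace X] (d : ℝ) (S : Set X) : Prop := volume S = 0 ∧ μH[d] S = 0

/-- Almost every lattice has the limit laws. -/
theorem laws (H : ℝ → ℝ) (hH : IsSupport H) : ∀ᵐ ab : (ℝ × ℝ) × (ℝ × ℝ), det ab.1 ab.2 ≠ 0 ∧ HasLaws ab.1 ab.2 H := by
  by_cases h : IsAffine H
  · have h3 : order H = 36 := if_pos h
    rcases h with h | h
    · filter_upwards [Pool.Agent.Helper75.LMA.laws_gen h.1 hH.2.1 hH.2.2 h.2] with ab h1
      refine ⟨h1.1, ?_⟩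
      unfold HasLaws
      rw [h3]
      exact h1.2
    · filter_upwards [Pool.Agent.Helper75.LMA.laws_aff h.1 hH.2.1 hH.2.2 h.2] with ab h1
      refine ⟨h1.1, ?_⟩
      unfold HasLaws
      rw [h3]
      exact h1.2
  · have h3 : order H = 20 := if_neg h
    filter_upwards [Pool.Agent.Helper75.LMA.laws_12 hH.1 hH.2.1 hH.2.2] with ab h1
    refine ⟨h1.1, ?_⟩
    unfold HasLaws
    rw [h3]
    exact h1.2

/-- For every oval `D` with support function `H` of class `C⁵` and every `e` in `[1/2, 5/8]`, the pairs `(a, b)` of linearly independent vectors of the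
plane for which, for some `p` in `(0, ∞]` with `expoOf H p ≤ e`, the discrepancy bound of order `p` with the exponent `e + ε` fails, or, if `e = 1/2` (where
the bound is sharpened to limit laws), the limit laws fail, form a set of measure zero in `ℝ⁴`, and its Hausdorff measure of dimension `dimBound H e` is zero
(for `e < expo H` this dimension is above `4`, and only the first is a condition). -/
theorem result : ∀ H : ℝ → ℝ, IsSupport H → ∀ e : ℝ, 1 / 2 ≤ e → e ≤ 5 / 8 →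
    IsSmall (dimBound H e) {ab : (ℝ × ℝ) × (ℝ × ℝ) | det ab.1 ab.2 ≠ 0 ∧
      ((∃ p : ℝ≥0∞, 0 < p ∧ expoOf H p ≤ e ∧ ¬ HasBound ab.1 ab.2 H p e) ∨ (e = 1 / 2 ∧ ¬ HasLaws ab.1 ab.2 H))} := by
  intro H hH e he he1
  have he0 : 0 < e := by linarith
  have hlaw := laws H hH
  by_cases h : IsAffine H
  · have h1 : expo H = 9 / 17 := if_pos h
    have h2 : dimBound H e = max (9 / e - 13) ((46 - 54 * e) / (6 - 3 * e)) := if_pos h
    have h3 : order H = ((36 : ℕ) : ℝ) := by
      rw [order, if_pos h]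
      norm_num
    have h4 : ∀ p : ℝ≥0∞, expoOf H p = Pool.Agent.Helper75.LM.ex (9 / 17) ((36 : ℕ) : ℝ) p := fun p => by
      rw [expoOf, h1, h3]
      rfl
    have h5 : e < 9 / 17 → 4 < max (9 / e - 13) ((46 - 54 * e) / (6 - 3 * e)) := fun h6 => by
      refine lt_max_of_lt_left ?_
      rw [lt_sub_iff_add_lt, lt_div_iff₀ he0]
      linarith
    rw [h2]
    simp only [h4]
    rcases h with h | h
    · exact Pool.Agent.Helper75.LMA.small_law (H := H) (P := 36) (θ := 9 / 17) (d := fun e => max (9 / e - 13) ((46 - 54 * e) / (6 - 3 * e)))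
        (L := fun ab => HasLaws ab.1 ab.2 H) (by norm_num) (by norm_num) (by norm_num) (Pool.Agent.Helper75.TW.gen_last h.1 hH.2.1 hH.2.2 h.2)
        (Pool.Agent.Helper75.LM.lm_gen h.1 hH.2.1 hH.2.2 h.2) hlaw (fun e he he1 => Pool.Agent.Helper75.GD.latt_gen h.1 hH.2.1 hH.2.2 h.2 he he1) he1 h5
    · exact Pool.Agent.Helper75.LMA.small_law (H := H) (P := 36) (θ := 9 / 17) (d := fun e => max (9 / e - 13) ((46 - 54 * e) / (6 - 3 * e)))
        (L := fun ab => HasLaws ab.1 ab.2 H) (by norm_num) (by norm_num) (by norm_num) (Pool.Agent.Helper75.TW.aff_last h.1 hH.2.1 hH.2.2 h.2)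
        (Pool.Agent.Helper75.LM.lm_aff h.1 hH.2.1 hH.2.2 h.2) hlaw (fun e he he1 => Pool.Agent.Helper75.GD.latt_aff h.1 hH.2.1 hH.2.2 h.2 he he1) he1 h5
  · have h1 : expo H = 5 / 9 := if_neg h
    have h2 : dimBound H e = 5 / e - 5 := if_neg h
    have h3 : order H = ((20 : ℕ) : ℝ) := by
      rw [order, if_neg h]
      norm_num
    have h4 : ∀ p : ℝ≥0∞, expoOf H p = Pool.Agent.Helper75.LM.ex (5 / 9) ((20 : ℕ) : ℝ) p := fun p => by
      rw [expoOf, h1, h3]
      rfl
    have h5 : e < 5 / 9 → 4 < 5 / e - 5 := fun h6 => by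
      rw [lt_sub_iff_add_lt, lt_div_iff₀ he0]
      linarith
    rw [h2]
    simp only [h4]
    exact Pool.Agent.Helper75.LMA.small_law (H := H) (P := 20) (θ := 5 / 9) (d := fun e => 5 / e - 5) (L := fun ab => HasLaws ab.1 ab.2 H) (by norm_num)
        (by norm_num) (by norm_num) (Pool.Agent.Helper92.LA.lattice_main hH.1 hH.2.1 hH.2.2) (Pool.Agent.Helper75.LM.lm_12 hH.1 hH.2.1 hH.2.2) hlaw
        (fun e he he1 => Pool.Agent.Helper75.GD.latt12 hH.1 hH.2.1 hH.2.2 he he1) he1 h5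

/-- Almost every lattice has, for every order `p`, the discrepancy bound with the exponent `expoOf H p`. -/
theorem almost_every (H : ℝ → ℝ) (hH : IsSupport H) : ∀ᵐ ab : (ℝ × ℝ) × (ℝ × ℝ), det ab.1 ab.2 ≠ 0 ∧
    ∀ p : ℝ≥0∞, 0 < p → HasBound ab.1 ab.2 H p (expoOf H p) := by
  by_cases h : IsAffine H
  · have h4 : ∀ p : ℝ≥0∞, expoOf H p = Pool.Agent.Helper75.LM.ex (9 / 17) ((36 : ℕ) : ℝ) p := fun p => by
      rw [expoOf, expo, order, if_pos h, if_pos h]
      unfold Pool.Agent.Helper75.LM.ex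
      norm_num
    simp only [h4]
    rcases h with h | h
    · filter_upwards [Pool.Agent.Helper75.TW.gen_last h.1 hH.2.1 hH.2.2 h.2, Pool.Agent.Helper75.LM.lm_gen h.1 hH.2.1 hH.2.2 h.2] with ab h1 h2
      exact ⟨h1.1, fun p hp => Pool.Agent.Helper75.LM.HB_all (by norm_num) (by norm_num) (by norm_num) h1.2 h2.2 hp⟩
    · filter_upwards [Pool.Agent.Helper75.TW.aff_last h.1 hH.2.1 hH.2.2 h.2, Pool.Agent.Helper75.LM.lm_aff h.1 hH.2.1 hH.2.2 h.2] with ab h1 h2
      exact ⟨h1.1, fun p hp => Pool.Agent.Helper75.LM.HB_all (by norm_num) (by norm_num) (by norm_num) h1.2 h2.2 hp⟩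
  · have h4 : ∀ p : ℝ≥0∞, expoOf H p = Pool.Agent.Helper75.LM.ex (5 / 9) ((20 : ℕ) : ℝ) p := fun p => by
      rw [expoOf, expo, order, if_neg h, if_neg h]
      unfold Pool.Agent.Helper75.LM.ex
      norm_num
    simp only [h4]
    filter_upwards [Pool.Agent.Helper92.LA.lattice_main hH.1 hH.2.1 hH.2.2, Pool.Agent.Helper75.LM.lm_12 hH.1 hH.2.1 hH.2.2] with ab h1 h2
    exact ⟨h1.1, fun p hp => Pool.Agent.Helper75.LM.HB_all (by norm_num) (by norm_num) (by norm_num) h1.2 h2.2 hp⟩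

/-- The integrands in `HasBound` are Borel functions. -/
theorem measurable (H : ℝ → ℝ) (hH : IsSupport H) (a b : ℝ × ℝ) (hab : det a b ≠ 0) (p : ℝ) (hp : 0 < p) :
    Measurable (fun R : ℝ => ⨆ c : ℝ × ℝ, ENNReal.ofReal (|err a b H c R| ^ p)) :=
  Pool.Agent.Helper75.LM.latt_meas (ab := (a, b)) (hH.1.of_le (by norm_num)) hH.2.1 hH.2.2 hab hp

/-- The error at the worst centre is finite, and a Borel function of the radius; so is the error at every centre. -/
theorem worst_finite (H : ℝ → ℝ) (hH : IsSupport H) (a b : ℝ × ℝ) (hab : det a b ≠ 0) :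
    (∀ R : ℝ, BddAbove (Set.range fun c : ℝ × ℝ => |err a b H c R|)) ∧ Measurable (worst a b H) ∧ ∀ c : ℝ × ℝ, Measurable (err a b H c) :=
  have h := Pool.Agent.Helper75.LMA.worst_facts (ab := (a, b)) (hH.1.of_le (by norm_num)) hH.2.1 hH.2.2 hab
  ⟨h.1, h.2.1, fun c => (Pool.Agent.Helper33.LMA.okU_lat (ab := (a, b)) (hH.1.of_le (by norm_num)) hH.2.1 hH.2.2 hab c).1⟩

/-- The asymptotic formulas for almost every lattice: `∫_1^X |U(R)|^p dR ∼ M X^(1 + p/2)`, `M > 0`, for `0 < p < order H`, for `U = sup_c |E_c|` and for `U = E_c`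
with any centre `c`. -/
theorem asymptotic (H : ℝ → ℝ) (hH : IsSupport H) : ∀ᵐ ab : (ℝ × ℝ) × (ℝ × ℝ), det ab.1 ab.2 ≠ 0 ∧ ∀ p : ℝ, 0 < p → p < order H →
    ∀ U : ℝ → ℝ, (U = worst ab.1 ab.2 H ∨ ∃ c : ℝ × ℝ, U = err ab.1 ab.2 H c) →
      ∃ M : ℝ, 0 < M ∧ Filter.Tendsto (fun X : ℝ => (∫ R in Set.Icc 1 X, |U R| ^ p) / X ^ (1 + p / 2)) Filter.atTop (nhds M) := by
  filter_upwards [laws H hH] with ab h1
  refine ⟨h1.1, fun p hp hp1 U hU => ?_⟩
  exact Pool.Agent.Helper75.LMA.asyU_of (hH.1.of_le (by norm_num)) hH.2.1 hH.2.2 h1.1 (P := order H) hU (h1.2 U hU) hp hp1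

/-- For `p = ∞` the exponent is `expo H`. -/
theorem expoOf_top (H : ℝ → ℝ) : expoOf H ⊤ = expo H := by
  unfold expoOf
  simp

/-- For `p ≤ order H` the exponent is `1/2`. -/
theorem expoOf_le (H : ℝ → ℝ) {p : ℝ} (hp : 0 < p) (h : p ≤ order H) : expoOf H (ENNReal.ofReal p) = 1 / 2 := by
  unfold expoOf
  rw [← ENNReal.ofReal_inv_of_pos hp, ENNReal.toReal_ofReal (by positivity), max_eq_left, mul_zero, add_zero]
  rw [sub_nonpos, ← div_eq_mul_inv, le_div_iff₀ hp, one_mul]
  exact h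

/-- A small set has dimension at most `d`. -/
theorem dimension {X : Type*} [EMetricSpace X] [MeasureSpace X] [BorelSpace X] {d : ℝ} {S : Set X} (hd : 0 ≤ d) (h : IsSmall d S) : dimH S ≤ ENNReal.ofReal d := by
  refine dimH_le_of_hausdorffMeasure_ne_top (d := d.toNNReal) ?_
  rw [Real.coe_toNNReal _ hd, h.2]
  exact ENNReal.zero_ne_top

/-- The condition holds for the ellipses `{p + x u + y v | x² + y² ≤ 1}`, `u`, `v` linearly independent; the disc is `H = 1`. -/
theorem isAffine_ellipse {H : ℝ → ℝ} {u v p : ℝ × ℝ} (huv : det u v ≠ 0) (hH : ∀ t, H t =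
    √((u.1 * cos t + u.2 * sin t) ^ 2 + (v.1 * cos t + v.2 * sin t) ^ 2) + (p.1 * cos t + p.2 * sin t)) : IsAffine H :=
  Or.inr ⟨(Pool.Agent.Helper75.TW.ell_aff huv hH).1, (Pool.Agent.Helper75.TW.ell_aff huv hH).2.2⟩

/-- The function `H + a cos (m t) + b sin (m t)`. -/
noncomputable def perturb (H : ℝ → ℝ) (m : ℕ) (a b : ℝ) (t : ℝ) : ℝ := H t + (a * cos (m * t) + b * sin (m * t))

/-- The condition is generic: every oval of class `C⁷` has arbitrarily small perturbations `H + a cos (m t) + b sin (m t)`, `m` fixed, which satisfy it. -/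
theorem isAffine_dense {H : ℝ → ℝ} (hH : IsSupport H) (h7 : ContDiff ℝ 7 H) : ∃ m : ℕ, ∀ δ : ℝ, 0 < δ → ∃ a b : ℝ, |a| < δ ∧ |b| < δ ∧
    IsSupport (perturb H m a b) ∧ IsAffine (perturb H m a b) := by
  obtain ⟨m, hm⟩ := Pool.Agent.Helper92.AG.gen_dense h7 hH.2.1 hH.2.2
  refine ⟨m, fun δ hδ => ?_⟩
  obtain ⟨a, b, ha, hb, h1, h2⟩ := hm δ hδ
  have hs : ContDiff ℝ 7 (perturb H m a b) := by
    unfold perturb
    fun_prop
  refine ⟨a, b, ha, hb, ⟨hs.of_le (by norm_num), fun t => ?_, h1⟩, Or.inl ⟨hs, h2⟩⟩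
  unfold perturb
  rw [hH.2.1 t, mul_add, Real.cos_add_nat_mul_two_pi, Real.sin_add_nat_mul_two_pi]

end Pool.Agent.Results.MP_fb29e9_nt.AlmostEveryLattice
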