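import Mathlib
import Pool.Agent.Helper27.AW.Fin
import Pool.Agent.Helper27.AK.Strict
import Pool.Agent.Helper60.EX.Size

/-!
# The circle problem for almost every oval of class `C^k`, `2 ≤ k ≤ ∞` (prevalence): the law of the large values of the error, with the exact constants
-/

set_option autoImplicit false
open MeasureTheory Real Set

namespace Pool.Agent.Results.MP_fb29e9_nt.AlmostEveryOval

/-- The space `V` of the `2π`-periodic functions `ℝ → ℝ` of class `C^k`, `k ≤ ∞`. -/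
structure Per (k : ℕ∞) where
  /-- the function -/
  val : ℝ → ℝ
  /-- it is of class `C^k` -/
  smooth : ContDiff ℝ k val
  /-- it is `2π`-periodic -/
  periodic : Function.Periodic val (2 * π)

/-- The topology of `C^k`: uniform convergence of the derivatives of all orders `≤ k`. -/
noncomputable instance (k : ℕ∞) : TopologicalSpace (Per k) :=
  TopologicalSpace.induced (fun v (j : {j : ℕ // (j : ℕ∞) ≤ k}) => UniformFun.ofFun (iteratedDeriv j.1 v.val)) inferInstance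

/-- The Borel sets. -/
noncomputable instance (k : ℕ∞) : MeasurableSpace (Per k) := borel (Per k)

/-- `S` is prevalent (its complement is shy, or Haar null; Christensen, Hunt-Sauer-Yorke): the complement lies in a Borel set `B` of `V` such that some Borel
probability measure `μ` on `V` with compact support has `μ (B - v) = 0` for all `v ∈ V`. -/
def Prevalent {k : ℕ∞} (S : Set (Per k)) : Prop :=
  ∃ B : Set (Per k), Sᶜ ⊆ B ∧ MeasurableSet B ∧ ∃ μ : Measure (Per k), IsProbabilityMeasure μ ∧ (∃ K : Set (Per k), IsCompact K ∧ μ Kᶜ = 0) ∧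
    ∀ v : Per k, μ {w | ∃ u ∈ B, ∀ t, u.val t = w.val t + v.val t} = 0

/-- The determinant of the vectors `a`, `b`. -/
def det (a b : ℝ × ℝ) : ℝ := a.1 * b.2 - a.2 * b.1

/-- The number of `(m, n) ∈ ℤ²` with `m a + n b ∈ c + R · D`, where `D = {p | p.1 cos t + p.2 sin t ≤ H t for all t}`. -/
noncomputable def latticeCount (a b : ℝ × ℝ) (H : ℝ → ℝ) (c : ℝ × ℝ) (R : ℝ) : ℝ :=
  (Nat.card {k : ℤ × ℤ // ∀ t : ℝ, ((k.1 : ℝ) * a.1 + (k.2 : ℝ) * b.1 - c.1) * cos t +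
    ((k.1 : ℝ) * a.2 + (k.2 : ℝ) * b.2 - c.2) * sin t ≤ R * H t} : ℝ)

/-- The area of `D`. -/
noncomputable def area (H : ℝ → ℝ) : ℝ :=
  (volume {p : ℝ × ℝ | ∀ t : ℝ, p.1 * cos t + p.2 * sin t ≤ H t}).toReal

/-- The error: the number of points of the lattice `ℤ a + ℤ b` in `c + R · D` minus `area(D) R² / |det(a, b)|`. -/
noncomputable def err (a b : ℝ × ℝ) (H : ℝ → ℝ) (c : ℝ × ℝ) (R : ℝ) : ℝ := latticeCount a b H c R - area H * R ^ 2 / |det a b|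

/-- `g(R) = R^(1/2) (log R)^(1/4)`. -/
noncomputable def g (R : ℝ) : ℝ := R ^ (1 / 2 : ℝ) * log R ^ (1 / 4 : ℝ)

/-- The affine perimeter of `D`: the integral of `(H + H'')^(2/3)` over `[0, 2π]`. -/
noncomputable def affinePerimeter (H : ℝ → ℝ) : ℝ := ∫ t in (0 : ℝ)..(2 * π), (H t + deriv (deriv H) t) ^ (2 / 3 : ℝ)

/-- The wave `f(x) = π⁻¹ ∑_{j ≥ 1} j^(-3/2) cos(2π j x - 3π/4)`. -/
noncomputable def wave (x : ℝ) : ℝ :=
  1 / π * ∑' j : ℕ, ((j + 1 : ℕ) : ℝ) ^ (-(3 / 2) : ℝ) * cos (2 * π * (((j + 1 : ℕ) : ℝ) * x) - 3 * π / 4)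

/-- `Λ(s)`, the logarithm of the integral of `exp(s f(x))` over `[0, 1]`. -/
noncomputable def logLaplace (s : ℝ) : ℝ := log (∫ x in (0 : ℝ)..1, exp (s * wave x))

/-- The constant `κ(σ) = 4 (2 π⁻² ∫₀^∞ Λ(σ r^(-3/2)) r dr)^(3/4)`. -/
noncomputable def kappa (σ : ℝ) : ℝ := 4 * (2 / π ^ 2 * ∫ r in Ioi (0 : ℝ), logLaplace (σ * r ^ (-(3 / 2) : ℝ)) * r) ^ (3 / 4 : ℝ)

/-- `T(σ, H) = κ(σ) P^(3/4)`, `P` the affine perimeter. -/
noncomputable def T (σ : ℝ) (H : ℝ → ℝ) : ℝ := kappa σ * affinePerimeter H ^ (3 / 4 : ℝ)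

/-- The Lebesgue measure of the set of the `R` in `[X, 2X]` with `σ · error ≥ t g(R)`, for the lattice `ℤ²` and the centre `c`. -/
noncomputable def largeValues (σ : ℝ) (H : ℝ → ℝ) (c : ℝ × ℝ) (t X : ℝ) : ℝ :=
  volume.real {R : ℝ | R ∈ Icc X (2 * X) ∧ t * g R ≤ σ * err (1, 0) (0, 1) H c R}

/-- The Lebesgue measure of the set of the `R` in `[X, 2X]` with `σ · error ≥ t g(R)` for some centre, for the lattice `ℤ²`. -/
noncomputable def worstLargeValues (σ : ℝ) (H : ℝ → ℝ) (t X : ℝ) : ℝ :=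
  volume.real {R : ℝ | R ∈ Icc X (2 * X) ∧ ∃ c : ℝ × ℝ, t * g R ≤ σ * err (1, 0) (0, 1) H c R}

/-- The law of the large values. -/
theorem law (k : ℕ∞) (hk : 2 ≤ k) :
    0 < kappa 1 ∧ kappa 1 < kappa (-1) ∧
    Prevalent {H : Per k | (∀ t, 0 < H.val t + deriv (deriv H.val) t) →
      (k ≤ 5 → ∀ K : Set ((ℝ × ℝ) × (ℝ × ℝ)), IsCompact K → (∀ p ∈ K, det p.1 p.2 ≠ 0) →
        ∃ C : ℝ, ∀ p ∈ K, ∀ R : ℝ, 2 ≤ R → ∀ c : ℝ × ℝ, |err p.1 p.2 H.val c R| ≤ C * g R) ∧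
      ∀ σ : ℝ, σ = 1 ∨ σ = -1 → ∀ t : ℝ, 0 < t → ∀ ε : ℝ, 0 < ε → ∃ X₀ : ℝ, ∀ X : ℝ, X₀ ≤ X →
        worstLargeValues σ H.val t X ≤ X ^ (1 - (t / T σ H.val) ^ 4 + ε) ∧ ∀ c : ℝ × ℝ,
        (t < T σ H.val → X ^ (1 - (t / T σ H.val) ^ 4 - ε) ≤ largeValues σ H.val c t X) ∧
        (T σ H.val < t → ∀ R : ℝ, X ≤ R → σ * err (1, 0) (0, 1) H.val c R < t * g R)} := by
  have h0 : 0 < 2 / π ^ 2 * ∫ r in Ioi (0 : ℝ), logLaplace (1 * r ^ (-(3 / 2) : ℝ)) * r :=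
    mul_pos (by positivity) (Pool.Agent.Helper93.EX.Jc_pos (Or.inl rfl))
  have h1 : 2 / π ^ 2 * ∫ r in Ioi (0 : ℝ), logLaplace (1 * r ^ (-(3 / 2) : ℝ)) * r <
      2 / π ^ 2 * ∫ r in Ioi (0 : ℝ), logLaplace (-1 * r ^ (-(3 / 2) : ℝ)) * r :=
    mul_lt_mul_of_pos_left Pool.Agent.Helper27.AK.Jc_lt (by positivity)
  refine ⟨?_, ?_, ?_⟩
  · unfold kappa
    positivity
  · unfold kappa
    exact mul_lt_mul_of_pos_left (rpow_lt_rpow h0.le h1 (by norm_num)) (by norm_num)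
  have hB : BorelSpace (Per k) := ⟨rfl⟩
  have hP : Pool.Agent.Helper27.AO.IsPerI k (Per.val (k := k)) := by
    refine ⟨fun v => v.smooth, fun v => v.periodic, fun v w h => ?_, fun f h1 h2 => ⟨⟨f, h1, h2⟩, rfl⟩, ⟨rfl⟩⟩
    cases v
    cases w
    simp only [Per.mk.injEq]
    exact h
  obtain ⟨B, h1, h2, h3⟩ := Pool.Agent.Helper27.AW.prev_final hP hk
  exact ⟨B, fun H hH => by_contra fun hn => hH (h1 H hn), h2, h3⟩

/-- `κ(σ) > 0` and `P > 0`, so `T(σ, H) > 0`. -/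
theorem T_pos {H : ℝ → ℝ} (h2 : ContDiff ℝ 2 H) (hr : ∀ t, 0 < H t + deriv (deriv H) t) {σ : ℝ} (hσ : 0 < kappa σ) : 0 < T σ H := by
  have h1 : ContDiff ℝ 1 (deriv H) := (contDiff_succ_iff_deriv.1 (by norm_num; exact h2 : ContDiff ℝ (1 + 1) H)).2.2
  have h3 : Continuous (deriv (deriv H)) := h1.continuous_deriv le_rfl
  have h4 : Continuous fun t => (H t + deriv (deriv H) t) ^ (2 / 3 : ℝ) :=
    (h2.continuous.add h3).rpow_const fun t => Or.inr (by norm_num)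
  have hP : 0 < affinePerimeter H :=
    intervalIntegral.intervalIntegral_pos_of_pos_on (h4.intervalIntegrable _ _) (fun t _ => rpow_pos_of_pos (hr t) _) (by positivity)
  exact mul_pos hσ (rpow_pos_of_pos hP _)

theorem err_eq (H : ℝ → ℝ) (c : ℝ × ℝ) (R : ℝ) : err (1, 0) (0, 1) H c R = Pool.Agent.Helper22.AC.cntc H c R - Pool.Agent.Helper22.AE.area H * R ^ 2 := by
  have e1 : latticeCount (1, 0) (0, 1) H c R = Pool.Agent.Helper22.AC.cntc H c R := by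
    unfold latticeCount Pool.Agent.Helper22.AC.cntc
    simp
  have e2 : |det (1, 0) (0, 1)| = 1 := by
    unfold det
    norm_num
  unfold err
  rw [e1, e2, div_one]
  rfl

/-- The exact size of the error, from the law of the large values. -/
theorem exact_size {k : ℕ∞} (hk : 2 ≤ k) (H : Per k) (hr : ∀ t, 0 < H.val t + deriv (deriv H.val) t) (hk1 : 0 < kappa 1) (hk2 : kappa 1 < kappa (-1))
    (hlaw : ∀ σ : ℝ, σ = 1 ∨ σ = -1 → ∀ t : ℝ, 0 < t → ∀ ε : ℝ, 0 < ε → ∃ X₀ : ℝ, ∀ X : ℝ, X₀ ≤ X →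
        worstLargeValues σ H.val t X ≤ X ^ (1 - (t / T σ H.val) ^ 4 + ε) ∧ ∀ c : ℝ × ℝ,
        (t < T σ H.val → X ^ (1 - (t / T σ H.val) ^ 4 - ε) ≤ largeValues σ H.val c t X) ∧
        (T σ H.val < t → ∀ R : ℝ, X ≤ R → σ * err (1, 0) (0, 1) H.val c R < t * g R)) :
    (∀ ε : ℝ, 0 < ε → ∃ C : ℝ, ∀ R : ℝ, 1 ≤ R → ∀ c : ℝ × ℝ, |err (1, 0) (0, 1) H.val c R| ≤ C * R ^ (1 / 2 + ε)) ∧
      ∀ c : ℝ × ℝ, Filter.limsup (fun R : ℝ => err (1, 0) (0, 1) H.val c R / g R) Filter.atTop = T 1 H.val ∧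
        Filter.liminf (fun R : ℝ => err (1, 0) (0, 1) H.val c R / g R) Filter.atTop = -T (-1) H.val := by
  have hk' : ((2 : ℕ∞) : WithTop ℕ∞) ≤ (k : WithTop ℕ∞) := by exact_mod_cast hk
  have h2 : ContDiff ℝ 2 H.val := H.smooth.of_le hk'
  have hT1 : 0 < T 1 H.val := T_pos h2 hr hk1
  have hT2 : 0 < T (-1) H.val := T_pos h2 hr (hk1.trans hk2)
  have hg : ∀ᶠ R : ℝ in Filter.atTop, 0 < g R := by
    filter_upwards [Filter.eventually_gt_atTop 1] with R hR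
    exact mul_pos (rpow_pos_of_pos (by linarith) _) (rpow_pos_of_pos (log_pos hR) _)
  -- the upper bounds, uniform in the centre
  have hup : ∀ σ : ℝ, σ = 1 ∨ σ = -1 → 0 < T σ H.val → ∀ t : ℝ, T σ H.val < t →
      ∃ X₀ : ℝ, ∀ R : ℝ, X₀ ≤ R → ∀ c : ℝ × ℝ, σ * err (1, 0) (0, 1) H.val c R < t * g R := fun σ hσ hT t ht => by
    obtain ⟨X₀, h⟩ := hlaw σ hσ t (hT.trans ht) 1 one_pos
    exact ⟨X₀, fun R hR c => ((h X₀ le_rfl).2 c).2 ht R hR⟩
  -- the lower bounds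
  have hlo : ∀ σ : ℝ, σ = 1 ∨ σ = -1 → ∀ c : ℝ × ℝ, ∀ t : ℝ, 0 < t → t < T σ H.val →
      ∃ᶠ R : ℝ in Filter.atTop, t * g R ≤ σ * err (1, 0) (0, 1) H.val c R := fun σ hσ c t ht ht' => by
    obtain ⟨X₀, h⟩ := hlaw σ hσ t ht 1 one_pos
    rw [Filter.frequently_atTop]
    intro a
    obtain ⟨X, hX⟩ : ∃ X : ℝ, X = max (max X₀ a) 1 := ⟨_, rfl⟩
    have hX0 : X₀ ≤ X := by rw [hX]; exact (le_max_left _ _).trans (le_max_left _ _)
    have hXa : a ≤ X := by rw [hX]; exact (le_max_right _ _).trans (le_max_left _ _)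
    have hX1 : 1 ≤ X := by rw [hX]; exact le_max_right _ _
    have h1 := ((h X hX0).2 c).1 ht'
    have h3 : 0 < largeValues σ H.val c t X := lt_of_lt_of_le (rpow_pos_of_pos (by linarith) _) h1
    by_contra hno
    push Not at hno
    have h4 : {R : ℝ | R ∈ Icc X (2 * X) ∧ t * g R ≤ σ * err (1, 0) (0, 1) H.val c R} = ∅ := by
      ext R
      simp only [mem_ofPred_eq, mem_empty_iff_false, iff_false, not_and, not_le]
      exact fun hR => hno R (hXa.trans hR.1)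
    unfold largeValues at h3
    rw [h4] at h3
    simp at h3
  refine ⟨fun ε hε => ?_, fun c => ⟨?_, ?_⟩⟩
  · obtain ⟨X₁, h1⟩ := hup 1 (Or.inl rfl) hT1 (T 1 H.val + 1) (by linarith)
    obtain ⟨X₂, h3⟩ := hup (-1) (Or.inr rfl) hT2 (T (-1) H.val + 1) (by linarith)
    have key := Pool.Agent.Helper60.EX.bound_of (H := H.val) (T := T 1 H.val + T (-1) H.val + 1) (X₀ := max (max X₁ X₂) 2) (fun R hR c => by
      have hR1 : X₁ ≤ R := (le_max_left _ _).trans ((le_max_left _ _).trans hR)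
      have hR2 : X₂ ≤ R := (le_max_right _ _).trans ((le_max_left _ _).trans hR)
      have hR3 : 2 ≤ R := (le_max_right _ _).trans hR
      have hgR : 0 < g R := mul_pos (rpow_pos_of_pos (by linarith) _) (rpow_pos_of_pos (log_pos (by linarith)) _)
      rw [← err_eq]
      have a1 := h1 R hR1 c
      have a2 := h3 R hR2 c
      change |err (1, 0) (0, 1) H.val c R| ≤ (T 1 H.val + T (-1) H.val + 1) * g R
      rw [abs_le]
      constructor <;> nlinarith) hε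
    obtain ⟨C, hC⟩ := key
    refine ⟨C, fun R hR c => ?_⟩
    rw [err_eq]
    exact hC R hR c
  · refine Pool.Agent.Helper60.EX.limsup_of hT1 (fun t ht => ?_) (fun t ht ht' => ?_) ⟨-(T (-1) H.val + 1), ?_⟩
    · obtain ⟨X₀, h⟩ := hup 1 (Or.inl rfl) hT1 t ht
      filter_upwards [hg, Filter.eventually_ge_atTop X₀] with R hR hR'
      rw [div_lt_iff₀ hR]
      linarith [h R hR' c]
    · refine ((hlo 1 (Or.inl rfl) c t ht ht').and_eventually hg).mono fun R hR => ?_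
      rw [le_div_iff₀ hR.2]
      linarith [hR.1]
    · obtain ⟨X₀, h⟩ := hup (-1) (Or.inr rfl) hT2 (T (-1) H.val + 1) (by linarith)
      filter_upwards [hg, Filter.eventually_ge_atTop X₀] with R hR hR'
      rw [le_div_iff₀ hR]
      linarith [h R hR' c]
  · refine Pool.Agent.Helper60.EX.liminf_of hT2 (fun t ht => ?_) (fun t ht ht' => ?_) ⟨T 1 H.val + 1, ?_⟩
    · obtain ⟨X₀, h⟩ := hup (-1) (Or.inr rfl) hT2 t ht
      filter_upwards [hg, Filter.eventually_ge_atTop X₀] with R hR hR'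
      rw [lt_div_iff₀ hR]
      linarith [h R hR' c]
    · refine ((hlo (-1) (Or.inr rfl) c t ht ht').and_eventually hg).mono fun R hR => ?_
      rw [div_le_iff₀ hR.2]
      linarith [hR.1]
    · obtain ⟨X₀, h⟩ := hup 1 (Or.inl rfl) hT1 (T 1 H.val + 1) (by linarith)
      filter_upwards [hg, Filter.eventually_ge_atTop X₀] with R hR hR'
      rw [div_le_iff₀ hR]
      linarith [h R hR' c]

/-- `0 < κ(1) < κ(-1)`: the negative errors have the larger constant. Let `2 ≤ k ≤ ∞`. Almost every `2π`-periodic function `H` of class `C^k`, in the sense of prevalence, has the property: if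
`H + H'' > 0` then (0) for the lattice `ℤ²`, for every `ε > 0` the error is at most `C R^(1/2 + ε)` in absolute value for all `R ≥ 1` and ALL centres `c`, and for EVERY centre the upper and the
lower limit of `error / g(R)`, as `R → ∞`, are `T(1, H) = κ(1) P^(3/4)` and `-T(-1, H) = -κ(-1) P^(3/4)`; (1) if `k ≤ 5`, for every compact set `K` of lattices `ℤ a + ℤ b`, the error is at most
`C g(R)` in absolute value for all lattices of `K`, all `R ≥ 2` and all centres `c`; (2) for the lattice `ℤ²`, `σ = 1` or `-1`, all `t > 0`, `ε > 0` and all large `X`: the measure of the set of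
the `R` in `[X, 2X]` with `σ · error ≥ t g(R)` for SOME centre is at most `X^(1 - (t/T)^4 + ε)`; for EVERY centre, the measure of the set of the `R` with `σ · error ≥ t g(R)` is at least
`X^(1 - (t/T)^4 - ε)` if `t < T`, and `σ · error < t g(R)` for all `R ≥ X` if `t > T`. -/
theorem result (k : ℕ∞) (hk : 2 ≤ k) :
    0 < kappa 1 ∧ kappa 1 < kappa (-1) ∧
    Prevalent {H : Per k | (∀ t, 0 < H.val t + deriv (deriv H.val) t) →
      ((∀ ε : ℝ, 0 < ε → ∃ C : ℝ, ∀ R : ℝ, 1 ≤ R → ∀ c : ℝ × ℝ, |err (1, 0) (0, 1) H.val c R| ≤ C * R ^ (1 / 2 + ε)) ∧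
        ∀ c : ℝ × ℝ, Filter.limsup (fun R : ℝ => err (1, 0) (0, 1) H.val c R / g R) Filter.atTop = T 1 H.val ∧
          Filter.liminf (fun R : ℝ => err (1, 0) (0, 1) H.val c R / g R) Filter.atTop = -T (-1) H.val) ∧
      (k ≤ 5 → ∀ K : Set ((ℝ × ℝ) × (ℝ × ℝ)), IsCompact K → (∀ p ∈ K, det p.1 p.2 ≠ 0) →
        ∃ C : ℝ, ∀ p ∈ K, ∀ R : ℝ, 2 ≤ R → ∀ c : ℝ × ℝ, |err p.1 p.2 H.val c R| ≤ C * g R) ∧
      ∀ σ : ℝ, σ = 1 ∨ σ = -1 → ∀ t : ℝ, 0 < t → ∀ ε : ℝ, 0 < ε → ∃ X₀ : ℝ, ∀ X : ℝ, X₀ ≤ X →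
        worstLargeValues σ H.val t X ≤ X ^ (1 - (t / T σ H.val) ^ 4 + ε) ∧ ∀ c : ℝ × ℝ,
        (t < T σ H.val → X ^ (1 - (t / T σ H.val) ^ 4 - ε) ≤ largeValues σ H.val c t X) ∧
        (T σ H.val < t → ∀ R : ℝ, X ≤ R → σ * err (1, 0) (0, 1) H.val c R < t * g R)} := by
  obtain ⟨hk1, hk2, B, hB, hBm⟩ := law k hk
  exact ⟨hk1, hk2, B, fun H hH => hB fun hprop => hH fun hr => ⟨exact_size hk H hr hk1 hk2 (hprop hr).2, hprop hr⟩, hBm⟩

end Pool.Agent.Results.MP_fb29e9_nt.AlmostEveryOval
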